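import Pool.Agent.Lib_MP_a20b56_qd.Vol

/-!
# Thick slabs and weak epsilon-nets (MP_a20b56_co): the product bound
-/

namespace MPa20b56.Qd

open scoped BigOperators Classical

noncomputable section

/-- the constant -/
def Cn (n : ℕ) : ℕ := (4 * (n + 1) * (3 * n + 1)) ^ n

theorem card_first {n : ℕ} (D : Finset (Fin n → ℤ)) (w : Fin n → (Fin n → ℤ))
    (hD : ∀ u ∈ D, ∃ a : Fin n → ℝ, (∀ i, |a i| ≤ 1) ∧ cv u = ∑ i, a i • cv (w i))
    (hs : ∀ j, ∃ a : Fin n → ℝ, (∀ i, |a i| ≤ 1) ∧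
      cv (Pi.single j 1 : Fin n → ℤ) = ∑ i, a i • cv (w i)) :
    (D.card : ℝ) ≤ |(mx w).det| * (2 * ((n : ℝ) + 1)) ^ n := by
  refine card_para w _ (by positivity) _ fun u hu z hz => ?_
  obtain ⟨a, ha, hau⟩ := hD u hu
  choose c hc hce using hs
  refine ⟨fun i => a i + ∑ j, (z j - u j) * c j i, fun i => ?_, ?_⟩
  · have h1 : |∑ j, (z j - (u j : ℝ)) * c j i| ≤ (n : ℝ) := by
      refine (Finset.abs_sum_le_sum_abs _ _).trans ?_
      calc _ ≤ ∑ _j : Fin n, (1 : ℝ) := Finset.sum_le_sum fun j _ => by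
            rw [abs_mul]
            have h2 := (mem_cube.1 hz) j
            have h3 : |z j - (u j : ℝ)| ≤ 1 := by
              rw [abs_le]; constructor <;> linarith [h2.1, h2.2]
            exact mul_le_one₀ h3 (abs_nonneg _) (hc j i)
        _ = _ := by simp
    calc _ ≤ |a i| + |∑ j, (z j - (u j : ℝ)) * c j i| := abs_add_le _ _
      _ ≤ 1 + (n : ℝ) := add_le_add (ha i) h1
      _ = _ := by ring
  · have h1 : z = cv u + ∑ j, (z j - (u j : ℝ)) • cv (Pi.single j 1 : Fin n → ℤ) := by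
      funext k
      rw [Pi.add_apply, Finset.sum_apply]
      simp only [Pi.smul_apply, smul_eq_mul, cv_apply, Pi.single_apply]
      rw [Finset.sum_eq_single k]
      · simp
      · intro j _ hj
        simp [Ne.symm hj]
      · intro h; exact absurd (Finset.mem_univ k) h
    conv_lhs => rw [h1]
    rw [hau]
    simp only [add_smul, Finset.sum_add_distrib]
    congr 1
    calc ∑ j, (z j - (u j : ℝ)) • cv (Pi.single j 1 : Fin n → ℤ) =
        ∑ j, (z j - (u j : ℝ)) • ∑ i, c j i • cv (w i) :=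
          Finset.sum_congr rfl fun j _ => by rw [hce j]
      _ = ∑ j, ∑ i, ((z j - (u j : ℝ)) * c j i) • cv (w i) := by
          refine Finset.sum_congr rfl fun j _ => ?_
          rw [Finset.smul_sum]
          exact Finset.sum_congr rfl fun i _ => smul_smul _ _ _
      _ = ∑ i, ∑ j, ((z j - (u j : ℝ)) * c j i) • cv (w i) := Finset.sum_comm
      _ = _ := Finset.sum_congr rfl fun i _ => (Finset.sum_smul ..).symm

/-- Let `D` be a finite set of integer vectors of norm at most `N`.  There are members `w i`,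
`i ∈ I`, of `D` such that every set `E` of integer points of the box `[0, N)^n` on which the forms
`w i` vary by at most `O(N)` has at most `O(N^n / |D|)` elements. -/
theorem product_bound {n N : ℕ} (hN : 1 ≤ N) (D : Finset (Fin n → ℤ))
    (hD : ∀ u ∈ D, ∀ j, |u j| ≤ (N : ℤ)) :
    ∃ (w : Fin n → (Fin n → ℤ)) (I : Finset (Fin n)), (∀ i ∈ I, w i ∈ D) ∧
      ∀ (κ : Fin n → ℝ) (E : Finset (Fin n → ℤ)), (∀ x ∈ E, ∀ j, 0 ≤ x j ∧ x j < (N : ℤ)) →
        (∀ x ∈ E, ∀ i ∈ I, |∑ j, (w i j : ℝ) * (x j : ℝ) - κ i| ≤ 2 * (n : ℝ) * N) →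
        D.card * E.card ≤ Cn n * N ^ n := by
  have hT : ∀ j : Fin n, (Pi.single j 1 : Fin n → ℤ) ∈
      D ∪ Finset.univ.image fun j => Pi.single j 1 := fun j =>
    Finset.mem_union_right _ (Finset.mem_image_of_mem _ (Finset.mem_univ j))
  obtain ⟨w, hw, hdet1, hcomb⟩ := auerbach _ hT
  have hdet : |(mx w).det| ≠ 0 := by linarith
  have hdet' : (mx w).det ≠ 0 := abs_ne_zero.1 hdet
  have hN' : (1 : ℝ) ≤ N := by exact_mod_cast hN
  refine ⟨w, Finset.univ.filter fun i => w i ∈ D, fun i hi => (Finset.mem_filter.1 hi).2, ?_⟩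
  intro κ E hE hκ
  have h1 := card_first D w (fun u hu => hcomb u (Finset.mem_union_left _ hu))
    (fun j => hcomb _ (hT j))
  have h2 : (E.card : ℝ) ≤ |(mx w).det|⁻¹ * (2 * ((3 * (n : ℝ) + 1) * N)) ^ n := by
    refine card_dual w hdet' _ (by positivity)
      (fun i => if w i ∈ D then κ i else 0) _ fun x hx z hz i => ?_
    rw [mem_cube] at hz
    by_cases hi : w i ∈ D
    · rw [if_pos hi]
      have h3 := hκ x hx i (Finset.mem_filter.2 ⟨Finset.mem_univ _, hi⟩)
      have h4 : |∑ j, (w i j : ℝ) * z j - ∑ j, (w i j : ℝ) * (x j : ℝ)| ≤ (n : ℝ) * N := by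
        rw [← Finset.sum_sub_distrib]
        refine (Finset.abs_sum_le_sum_abs _ _).trans ?_
        calc _ ≤ ∑ _j : Fin n, (N : ℝ) := Finset.sum_le_sum fun j _ => by
              rw [← mul_sub, abs_mul]
              have h5 : |z j - (x j : ℝ)| ≤ 1 := by
                rw [abs_le]; constructor <;> linarith [(hz j).1, (hz j).2]
              have h6 : |(w i j : ℝ)| ≤ N := by exact_mod_cast hD _ hi j
              calc _ ≤ (N : ℝ) * 1 := mul_le_mul h6 h5 (abs_nonneg _) (by positivity)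
                _ = _ := mul_one _
          _ = _ := by
              rw [Finset.sum_const, Finset.card_univ, Fintype.card_fin, nsmul_eq_mul]
      calc _ = |(∑ j, (w i j : ℝ) * z j - ∑ j, (w i j : ℝ) * (x j : ℝ)) +
            (∑ j, (w i j : ℝ) * (x j : ℝ) - κ i)| := by congr 1; ring
        _ ≤ _ := abs_add_le _ _
        _ ≤ (n : ℝ) * N + 2 * (n : ℝ) * N := add_le_add h4 h3
        _ ≤ _ := by nlinarith
    · rw [if_neg hi, sub_zero]
      obtain ⟨k, _, hk⟩ := Finset.mem_image.1 ((Finset.mem_union.1 (hw i)).resolve_left hi)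
      rw [← hk]
      have h3 : ∑ j, (((Pi.single k 1 : Fin n → ℤ) j : ℤ) : ℝ) * z j = z k := by
        rw [Finset.sum_eq_single k]
        · simp
        · intro j _ hj
          simp [hj]
        · intro h; exact absurd (Finset.mem_univ k) h
      rw [h3]
      obtain ⟨h4, h5⟩ := hE x hx k
      have h4' : (0 : ℝ) ≤ x k := by exact_mod_cast h4
      have h5' : (x k : ℝ) + 1 ≤ N := by exact_mod_cast h5
      have h6 : (N : ℝ) ≤ (3 * (n : ℝ) + 1) * N := by
        have : (0 : ℝ) ≤ (n : ℝ) * N := by positivity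
        nlinarith
      rw [abs_le]
      have := hz k
      constructor <;> linarith [this.1, this.2]
  have h3 : (D.card : ℝ) * (E.card : ℝ) ≤
      (|(mx w).det| * (2 * ((n : ℝ) + 1)) ^ n) *
      (|(mx w).det|⁻¹ * (2 * ((3 * (n : ℝ) + 1) * N)) ^ n) :=
    mul_le_mul h1 h2 (Nat.cast_nonneg _) (by positivity)
  have h4 : (|(mx w).det| * (2 * ((n : ℝ) + 1)) ^ n) *
      (|(mx w).det|⁻¹ * (2 * ((3 * (n : ℝ) + 1) * N)) ^ n) =
      (4 * ((n : ℝ) + 1) * (3 * (n : ℝ) + 1)) ^ n * (N : ℝ) ^ n := by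
    calc _ = (|(mx w).det| * |(mx w).det|⁻¹) *
        ((2 * ((n : ℝ) + 1)) ^ n * (2 * ((3 * (n : ℝ) + 1) * N)) ^ n) := by ring
      _ = _ := by
        rw [mul_inv_cancel₀ hdet, one_mul, ← mul_pow, ← mul_pow]
        congr 1; ring
  rw [h4] at h3
  rw [Cn]
  exact_mod_cast h3

end

end MPa20b56.Qd
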