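import Pool.Agent.Lib_MP_a20b56_lb.Gen
import Pool.Agent.Lib_MP_a20b56_qd.Prod

/-!
# Thick slabs and weak epsilon-nets (MP_a20b56_co): the count

The points are `(a, y, a aᵀ, y a)` for `a ∈ {0,…,N-1}^n` and `y ∈ N · {0,…,(n+1)N-1}`.  The slab
`v = (X, Z)` has one point for every `a`, with `|y - X·a - Z| ≤ N`.
-/

namespace MPa20b56.Qd

open scoped BigOperators Classical
open MPa20b56.Lb

noncomputable section

/-- `p · a` on the big space -/
def lin {n : ℕ} (p : Fin n → ℝ) : (Ix n → ℝ) →ₗ[ℝ] ℝ :=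
  ∑ i, p i • LinearMap.proj (Sum.inl i)

/-- `(p · a) (r · a)` on the big space -/
def qd {n : ℕ} (p r : Fin n → ℝ) : (Ix n → ℝ) →ₗ[ℝ] ℝ :=
  ∑ i, ∑ j, (p i * r j) • LinearMap.proj (Sum.inr (Sum.inr (Sum.inl s(i, j))))

/-- `y (p · a)` on the big space -/
def yl {n : ℕ} (p : Fin n → ℝ) : (Ix n → ℝ) →ₗ[ℝ] ℝ :=
  ∑ i, p i • LinearMap.proj (Sum.inr (Sum.inr (Sum.inr i)))

/-- `y` on the big space -/
def yy {n : ℕ} : (Ix n → ℝ) →ₗ[ℝ] ℝ := LinearMap.proj (Sum.inr (Sum.inl ()))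

/-- scalar product -/
def dp {n : ℕ} (p : Fin n → ℝ) (a : Fin n → ℕ) : ℝ := ∑ i, p i * (a i : ℝ)

theorem lin_apply {n : ℕ} (p : Fin n → ℝ) (q : Ix n → ℝ) :
    lin p q = ∑ i, p i * q (Sum.inl i) := by
  simp [lin, LinearMap.sum_apply, LinearMap.smul_apply, LinearMap.proj_apply]

theorem qd_apply {n : ℕ} (p r : Fin n → ℝ) (q : Ix n → ℝ) :
    qd p r q = ∑ i, ∑ j, (p i * r j) * q (Sum.inr (Sum.inr (Sum.inl s(i, j)))) := by
  simp [qd, LinearMap.sum_apply, LinearMap.smul_apply, LinearMap.proj_apply]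

theorem yl_apply {n : ℕ} (p : Fin n → ℝ) (q : Ix n → ℝ) :
    yl p q = ∑ i, p i * q (Sum.inr (Sum.inr (Sum.inr i))) := by
  simp [yl, LinearMap.sum_apply, LinearMap.smul_apply, LinearMap.proj_apply]

theorem lin_gp {n : ℕ} (p : Fin n → ℝ) (a : Fin n → ℕ) (y : ℕ) : lin p (gp a y) = dp p a := by
  rw [lin_apply, dp]
  rfl

theorem qd_gp {n : ℕ} (p r : Fin n → ℝ) (a : Fin n → ℕ) (y : ℕ) :
    qd p r (gp a y) = dp p a * dp r a := by
  rw [qd_apply, dp, dp, Finset.sum_mul_sum]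
  refine Finset.sum_congr rfl fun i _ => Finset.sum_congr rfl fun j _ => ?_
  rw [gp_aa]
  ring

theorem yl_gp {n : ℕ} (p : Fin n → ℝ) (a : Fin n → ℕ) (y : ℕ) :
    yl p (gp a y) = (y : ℝ) * dp p a := by
  rw [yl_apply, dp, Finset.mul_sum]
  refine Finset.sum_congr rfl fun i _ => ?_
  rw [gp_ya]
  ring

theorem yy_gp {n : ℕ} (a : Fin n → ℕ) (y : ℕ) : yy (gp a y) = (y : ℝ) := rfl

theorem lin_sub {n : ℕ} (p r : Fin n → ℝ) (q : Ix n → ℝ) :
    lin (p - r) q = lin p q - lin r q := by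
  rw [lin_apply, lin_apply, lin_apply, ← Finset.sum_sub_distrib]
  refine Finset.sum_congr rfl fun i _ => ?_
  rw [Pi.sub_apply]; ring

theorem qd_sub {n : ℕ} (p r t : Fin n → ℝ) (q : Ix n → ℝ) :
    qd p (r - t) q = qd p r q - qd p t q := by
  rw [qd_apply, qd_apply, qd_apply, ← Finset.sum_sub_distrib]
  refine Finset.sum_congr rfl fun i _ => ?_
  rw [← Finset.sum_sub_distrib]
  refine Finset.sum_congr rfl fun j _ => ?_
  rw [Pi.sub_apply]; ring

/-- a linear function on a hull -/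
theorem exists_le_of_mem_hull {W : Type} [AddCommGroup W] [Module ℝ W] (f : W →ₗ[ℝ] ℝ)
    {G : Finset W} {s : W} (hs : s ∈ convexHull ℝ (G : Set W)) : ∃ q ∈ G, f q ≤ f s := by
  by_contra hcon
  push Not at hcon
  have hC : Convex ℝ {q : W | f s < f q} := convex_halfSpace_gt f.isLinear _
  have h : f s < f s := convexHull_min (fun q hq => hcon q (Finset.mem_coe.1 hq)) hC hs
  exact lt_irrefl _ h

/-- the variance of `s` in direction `p` -/
def vr {n : ℕ} (s : Ix n → ℝ) (p : Fin n → ℝ) : ℝ := qd p p s - (lin p s) ^ 2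

/-- the covariance of `p · a` and `y - X · a` -/
def kv {n : ℕ} (s : Ix n → ℝ) (p X : Fin n → ℝ) : ℝ :=
  yl p s - qd p X s - lin p s * (yy s - lin X s)

/-- `G` lies in the slab of `(X, Z)` of half width `R` -/
def InSlab {n : ℕ} (G : Finset (Ix n → ℝ)) (X : Fin n → ℝ) (Z R : ℝ) : Prop :=
  ∀ q ∈ G, ∃ (a : Fin n → ℕ) (y : ℕ), q = gp a y ∧ |(y : ℝ) - dp X a - Z| ≤ R

theorem slab_mean {n : ℕ} {G : Finset (Ix n → ℝ)} {X : Fin n → ℝ} {Z R : ℝ}
    (hG : InSlab G X Z R) {s : Ix n → ℝ} (hs : s ∈ convexHull ℝ (G : Set (Ix n → ℝ))) :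
    |yy s - lin X s - Z| ≤ R := by
  rw [abs_le]
  constructor
  · obtain ⟨q, hq, hle⟩ := exists_le_of_mem_hull (yy - lin X) hs
    obtain ⟨a, y, rfl, h⟩ := hG q hq
    rw [LinearMap.sub_apply, LinearMap.sub_apply, yy_gp, lin_gp] at hle
    linarith [(abs_le.1 h).1]
  · obtain ⟨q, hq, hle⟩ := exists_le_of_mem_hull (lin X - yy) hs
    obtain ⟨a, y, rfl, h⟩ := hG q hq
    rw [LinearMap.sub_apply, LinearMap.sub_apply, yy_gp, lin_gp] at hle
    linarith [(abs_le.1 h).2]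

theorem slab_cov {n : ℕ} {G : Finset (Ix n → ℝ)} {X : Fin n → ℝ} {Z R : ℝ}
    (hG : InSlab G X Z R) {s : Ix n → ℝ} (hs : s ∈ convexHull ℝ (G : Set (Ix n → ℝ)))
    (p : Fin n → ℝ) (σ : ℝ) (hσ : σ ^ 2 = 1) :
    0 ≤ vr s p / 4 + R ^ 2 + σ * kv s p X := by
  set κ := lin p s with hκ
  obtain ⟨q, hq, hle⟩ := exists_le_of_mem_hull ((1 / 4 : ℝ) • (qd p p - (2 * κ) • lin p) +
    σ • (yl p - qd p X - Z • lin p - κ • (yy - lin X))) hs
  obtain ⟨a, y, rfl, h⟩ := hG q hq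
  simp only [LinearMap.add_apply, LinearMap.sub_apply, LinearMap.smul_apply, smul_eq_mul,
    yy_gp, lin_gp, qd_gp, yl_gp] at hle
  rw [vr, kv, ← hκ]
  rw [← hκ] at hle
  have h2 : ((y : ℝ) - dp X a - Z) ^ 2 ≤ R ^ 2 :=
    sq_le_sq' (by linarith [(abs_le.1 h).1]) (abs_le.1 h).2
  have h3 : 0 ≤ ((dp p a - κ) / 2 + σ * ((y : ℝ) - dp X a - Z)) ^ 2 := sq_nonneg _
  have h4 : ((dp p a - κ) / 2 + σ * ((y : ℝ) - dp X a - Z)) ^ 2 =
      (dp p a - κ) ^ 2 / 4 + σ * ((dp p a - κ) * ((y : ℝ) - dp X a - Z)) +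
      σ ^ 2 * ((y : ℝ) - dp X a - Z) ^ 2 := by ring
  rw [h4, hσ, one_mul] at h3
  nlinarith

/-- two slabs with a common point of the hulls -/
theorem vr_le {n : ℕ} {G G' : Finset (Ix n → ℝ)} {X X' : Fin n → ℝ} {Z Z' R : ℝ}
    (hG : InSlab G X Z R) (hG' : InSlab G' X' Z' R) {s : Ix n → ℝ}
    (hs : s ∈ convexHull ℝ (G : Set (Ix n → ℝ)))
    (hs' : s ∈ convexHull ℝ (G' : Set (Ix n → ℝ))) : vr s (X - X') ≤ 4 * R ^ 2 := by
  have h1 := slab_cov hG hs (X - X') 1 (by norm_num)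
  have h2 := slab_cov hG' hs' (X - X') (-1) (by norm_num)
  have h3 : kv s (X - X') X - kv s (X - X') X' = - vr s (X - X') := by
    rw [kv, kv, vr, qd_sub, lin_sub]
    ring
  linarith

/-- the points of the slab `v` -/
def PS {n : ℕ} (N : ℕ) (v : (Fin n → ℕ) × ℕ) : Finset (Ix n → ℝ) :=
  (Bx n N).image fun a => gp a (N * (hy v a / N))

/-- all points -/
def QP (n N : ℕ) : Finset (Ix n → ℝ) :=
  (Bx n N ×ˢ Finset.range ((n + 1) * N)).image fun p => gp p.1 (N * p.2)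

theorem PS_card {n : ℕ} (N : ℕ) (v : (Fin n → ℕ) × ℕ) : (PS N v).card = N ^ n := by
  rw [PS, Finset.card_image_of_injective, Bx_card]
  intro a b hab
  funext i
  have := congrFun hab (Sum.inl i)
  simp only [gp_a] at this
  exact_mod_cast this

theorem QP_card (n N : ℕ) : (QP n N).card ≤ N ^ n * ((n + 1) * N) := by
  refine Finset.card_image_le.trans ?_
  rw [Finset.card_product, Bx_card, Finset.card_range]

theorem PS_sub {n N : ℕ} {v : (Fin n → ℕ) × ℕ} (hv : v ∈ Hs n N) : PS N v ⊆ QP n N := by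
  intro q hq
  obtain ⟨a, ha, rfl⟩ := Finset.mem_image.1 hq
  rw [Hs, Finset.mem_product, mem_Bx, Finset.mem_range] at hv
  refine Finset.mem_image.2 ⟨(a, hy v a / N), ?_, rfl⟩
  rw [Finset.mem_product, Finset.mem_range]
  refine ⟨ha, ?_⟩
  rw [mem_Bx] at ha
  have h1 : ∑ i, v.1 i * a i ≤ ∑ _i : Fin n, N * N :=
    Finset.sum_le_sum fun i _ => Nat.mul_le_mul (hv.1 i).le (ha i).le
  rw [Finset.sum_const, Finset.card_univ, Fintype.card_fin, smul_eq_mul] at h1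
  have h2 := hv.2
  apply Nat.div_lt_of_lt_mul
  simp only [hy]
  nlinarith

theorem dp_cast {n : ℕ} (X a : Fin n → ℕ) :
    dp (fun i => (X i : ℝ)) a = ((∑ i, X i * a i : ℕ) : ℝ) := by
  rw [dp]
  push_cast
  rfl

theorem PS_slab {n N : ℕ} (hN : 1 ≤ N) (v : (Fin n → ℕ) × ℕ) :
    InSlab (PS N v) (fun i => (v.1 i : ℝ)) (v.2 : ℝ) (N : ℝ) := by
  intro q hq
  obtain ⟨a, _, rfl⟩ := Finset.mem_image.1 hq
  refine ⟨a, N * (hy v a / N), rfl, ?_⟩
  rw [dp_cast]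
  have h1 := Nat.div_add_mod (hy v a) N
  have h2 := Nat.mod_lt (hy v a) hN
  have h3 : ((hy v a : ℕ) : ℝ) = ((∑ i, v.1 i * a i : ℕ) : ℝ) + (v.2 : ℝ) := by
    rw [hy]; push_cast; rfl
  have h4 : ((N * (hy v a / N) : ℕ) : ℝ) + ((hy v a % N : ℕ) : ℝ) = ((hy v a : ℕ) : ℝ) := by
    exact_mod_cast h1
  have h5 : ((hy v a % N : ℕ) : ℝ) < N := by exact_mod_cast h2
  have h6 : (0 : ℝ) ≤ ((hy v a % N : ℕ) : ℝ) := Nat.cast_nonneg _
  rw [abs_le]
  constructor <;> linarith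

/-- the slopes of the slabs whose hull contains `s` -/
def Fs (n N : ℕ) (s : Ix n → ℝ) : Finset (Fin n → ℕ) :=
  (Bx n N).filter fun X => ∃ Z : ℕ, s ∈ convexHull ℝ (PS N (X, Z) : Set (Ix n → ℝ))

/-- their differences with one of them -/
def Ds (n N : ℕ) (s : Ix n → ℝ) : Finset (Fin n → ℤ) :=
  if h : (Fs n N s).Nonempty then
    (Fs n N s).image fun X i => (X i : ℤ) - (h.choose i : ℤ)
  else ∅

theorem Ds_card (n N : ℕ) (s : Ix n → ℝ) : (Ds n N s).card = (Fs n N s).card := by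
  rw [Ds]
  split_ifs with h
  · apply Finset.card_image_of_injective
    intro X Y hXY
    funext i
    have := congrFun hXY i
    simp only at this
    omega
  · rw [Finset.not_nonempty_iff_eq_empty.1 h, Finset.card_empty, Finset.card_empty]

theorem Ds_mem {n N : ℕ} {s : Ix n → ℝ} {u : Fin n → ℤ} (hu : u ∈ Ds n N s) :
    ∃ X ∈ Fs n N s, ∃ Y ∈ Fs n N s, ∀ i, u i = (X i : ℤ) - (Y i : ℤ) := by
  rw [Ds] at hu
  split_ifs at hu with h
  · obtain ⟨X, hX, rfl⟩ := Finset.mem_image.1 hu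
    exact ⟨X, hX, h.choose, h.choose_spec, fun i => rfl⟩
  · exact absurd hu (Finset.notMem_empty _)

theorem Ds_abs {n N : ℕ} {s : Ix n → ℝ} {u : Fin n → ℤ} (hu : u ∈ Ds n N s) (j : Fin n) :
    |u j| ≤ (N : ℤ) := by
  obtain ⟨X, hX, Y, hY, h⟩ := Ds_mem hu
  have h1 := mem_Bx.1 (Finset.mem_filter.1 hX).1 j
  have h2 := mem_Bx.1 (Finset.mem_filter.1 hY).1 j
  rw [h, abs_le]
  constructor <;> omega

theorem Ds_vr {n N : ℕ} (hN : 1 ≤ N) {s : Ix n → ℝ} {u : Fin n → ℤ} (hu : u ∈ Ds n N s) :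
    vr s (cv u) ≤ 4 * (N : ℝ) ^ 2 := by
  obtain ⟨X, hX, Y, hY, h⟩ := Ds_mem hu
  obtain ⟨Z, hZ⟩ := (Finset.mem_filter.1 hX).2
  obtain ⟨Z', hZ'⟩ := (Finset.mem_filter.1 hY).2
  have h1 := vr_le (PS_slab hN (X, Z)) (PS_slab hN (Y, Z')) hZ hZ'
  have h2 : cv u = (fun i => (X i : ℝ)) - fun i => (Y i : ℝ) := by
    funext i
    rw [cv_apply, h, Pi.sub_apply]
    push_cast
    rfl
  rw [h2]
  exact h1

/-- the basis -/
def ws {n N : ℕ} (hN : 1 ≤ N) (s : Ix n → ℝ) : Fin n → (Fin n → ℤ) :=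
  (product_bound hN (Ds n N s) fun _ hu j => Ds_abs hu j).choose

/-- the indices of differences in the basis -/
def Is {n N : ℕ} (hN : 1 ≤ N) (s : Ix n → ℝ) : Finset (Fin n) :=
  (product_bound hN (Ds n N s) fun _ hu j => Ds_abs hu j).choose_spec.choose

theorem ws_mem {n N : ℕ} (hN : 1 ≤ N) (s : Ix n → ℝ) {i : Fin n} (hi : i ∈ Is hN s) :
    ws hN s i ∈ Ds n N s :=
  (product_bound hN (Ds n N s) fun _ hu j => Ds_abs hu j).choose_spec.choose_spec.1 i hi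

theorem ws_bound {n N : ℕ} (hN : 1 ≤ N) (s : Ix n → ℝ) (κ : Fin n → ℝ)
    (E : Finset (Fin n → ℤ)) (h1 : ∀ x ∈ E, ∀ j, 0 ≤ x j ∧ x j < (N : ℤ))
    (h2 : ∀ x ∈ E, ∀ i ∈ Is hN s, |∑ j, (ws hN s i j : ℝ) * (x j : ℝ) - κ i| ≤ 2 * (n : ℝ) * N) :
    (Ds n N s).card * E.card ≤ Cn n * N ^ n :=
  (product_bound hN (Ds n N s) fun _ hu j => Ds_abs hu j).choose_spec.choose_spec.2 κ E h1 h2

/-- the test function -/
def Ls {n N : ℕ} (hN : 1 ≤ N) (s : Ix n → ℝ) : (Ix n → ℝ) →ₗ[ℝ] ℝ :=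
  ∑ i ∈ Is hN s, (qd (cv (ws hN s i)) (cv (ws hN s i)) -
    (2 * lin (cv (ws hN s i)) s) • lin (cv (ws hN s i)))

theorem Ls_apply {n N : ℕ} (hN : 1 ≤ N) (s q : Ix n → ℝ) : Ls hN s q =
    ∑ i ∈ Is hN s, (qd (cv (ws hN s i)) (cv (ws hN s i)) q -
      2 * lin (cv (ws hN s i)) s * lin (cv (ws hN s i)) q) := by
  simp [Ls, LinearMap.sum_apply, LinearMap.smul_apply]

/-- the `a` which are not beyond the test function -/
def Es {n N : ℕ} (hN : 1 ≤ N) (s : Ix n → ℝ) : Finset (Fin n → ℕ) :=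
  (Bx n N).filter fun a => Ls hN s (gp a 0) ≤ Ls hN s s

theorem Ls_gp {n N : ℕ} (hN : 1 ≤ N) (s : Ix n → ℝ) (a : Fin n → ℕ) (y : ℕ) :
    Ls hN s (gp a y) = Ls hN s (gp a 0) := by
  rw [Ls_apply, Ls_apply]
  refine Finset.sum_congr rfl fun i _ => ?_
  rw [qd_gp, qd_gp, lin_gp, lin_gp]

theorem Es_le {n N : ℕ} {hN : 1 ≤ N} {s : Ix n → ℝ} {a : Fin n → ℕ} (ha : a ∈ Es hN s)
    {i : Fin n} (hi : i ∈ Is hN s) :
    |dp (cv (ws hN s i)) a - lin (cv (ws hN s i)) s| ≤ 2 * (n : ℝ) * N := by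
  have h1 := (Finset.mem_filter.1 ha).2
  rw [Ls_apply, Ls_apply] at h1
  simp only [qd_gp, lin_gp] at h1
  have h2 : ∑ i ∈ Is hN s, (vr s (cv (ws hN s i))) ≤ (n : ℝ) * (4 * (N : ℝ) ^ 2) := by
    calc _ ≤ ∑ _i ∈ Is hN s, (4 * (N : ℝ) ^ 2) := Finset.sum_le_sum fun i hi =>
          Ds_vr hN (ws_mem hN s hi)
      _ = ((Is hN s).card : ℝ) * (4 * (N : ℝ) ^ 2) := by
          rw [Finset.sum_const, nsmul_eq_mul]
      _ ≤ _ := by
          apply mul_le_mul_of_nonneg_right _ (by positivity)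
          have := Finset.card_le_univ (Is hN s)
          rw [Fintype.card_fin] at this
          exact_mod_cast this
  have h3 : ∑ i ∈ Is hN s, (dp (cv (ws hN s i)) a - lin (cv (ws hN s i)) s) ^ 2 =
      ∑ i ∈ Is hN s, (dp (cv (ws hN s i)) a * dp (cv (ws hN s i)) a -
        2 * lin (cv (ws hN s i)) s * dp (cv (ws hN s i)) a) +
      ∑ i ∈ Is hN s, (lin (cv (ws hN s i)) s) ^ 2 := by
    rw [← Finset.sum_add_distrib]
    exact Finset.sum_congr rfl fun i _ => by ring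
  have h4 : ∑ i ∈ Is hN s, (vr s (cv (ws hN s i))) =
      ∑ i ∈ Is hN s, (qd (cv (ws hN s i)) (cv (ws hN s i)) s -
        2 * lin (cv (ws hN s i)) s * lin (cv (ws hN s i)) s) +
      ∑ i ∈ Is hN s, (lin (cv (ws hN s i)) s) ^ 2 := by
    rw [← Finset.sum_add_distrib]
    exact Finset.sum_congr rfl fun i _ => by rw [vr]; ring
  have h5 : ∑ i ∈ Is hN s, (dp (cv (ws hN s i)) a - lin (cv (ws hN s i)) s) ^ 2 ≤
      (n : ℝ) * (4 * (N : ℝ) ^ 2) := by
    rw [h3]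
    linarith
  have h6 : (dp (cv (ws hN s i)) a - lin (cv (ws hN s i)) s) ^ 2 ≤ (n : ℝ) * (4 * (N : ℝ) ^ 2) :=
    (Finset.single_le_sum (f := fun i => (dp (cv (ws hN s i)) a -
      lin (cv (ws hN s i)) s) ^ 2) (fun _ _ => sq_nonneg _) hi).trans h5
  have hn : (1 : ℝ) ≤ n := by
    have := i.pos
    exact_mod_cast this
  apply abs_le_of_sq_le_sq _ (by positivity)
  refine h6.trans ?_
  have : (0 : ℝ) ≤ (N : ℝ) ^ 2 := by positivity
  nlinarith

theorem Fs_Es {n N : ℕ} (hN : 1 ≤ N) (s : Ix n → ℝ) :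
    (Fs n N s).card * (Es hN s).card ≤ Cn n * N ^ n := by
  have h := ws_bound hN s (fun i => lin (cv (ws hN s i)) s)
    ((Es hN s).image fun a i => (a i : ℤ)) (fun x hx j => by
      obtain ⟨a, ha, rfl⟩ := Finset.mem_image.1 hx
      have := mem_Bx.1 (Finset.mem_filter.1 ha).1 j
      constructor
      · exact Int.natCast_nonneg _
      · simp only
        omega) (fun x hx i hi => by
      obtain ⟨a, ha, rfl⟩ := Finset.mem_image.1 hx
      have h1 := Es_le ha hi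
      rw [dp] at h1
      simp only [cv_apply] at h1
      simpa using h1)
  rw [Ds_card, Finset.card_image_of_injective] at h
  · exact h
  · intro a b hab
    funext i
    have := congrFun hab i
    simp only at this
    omega

/-- the deleted points -/
def Us {n N : ℕ} (hN : 1 ≤ N) (s : Ix n → ℝ) (v : (Fin n → ℕ) × ℕ) : Finset (Ix n → ℝ) :=
  (PS N v).filter fun q => Ls hN s q ≤ Ls hN s s

theorem Us_card {n N : ℕ} (hN : 1 ≤ N) (s : Ix n → ℝ) (v : (Fin n → ℕ) × ℕ) :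
    (Us hN s v).card ≤ (Es hN s).card := by
  refine (Finset.card_le_card ?_).trans
    (Finset.card_image_le (s := Es hN s) (f := fun a => gp a (N * (hy v a / N))))
  intro q hq
  obtain ⟨hq1, hq2⟩ := Finset.mem_filter.1 hq
  obtain ⟨a, ha, rfl⟩ := Finset.mem_image.1 hq1
  rw [Ls_gp] at hq2
  exact Finset.mem_image_of_mem _ (Finset.mem_filter.2 ⟨ha, hq2⟩)

theorem card_near (c : ℝ) (N : ℕ) (B : Finset ℕ) (hB : ∀ z ∈ B, |c - (z : ℝ)| ≤ N) :
    B.card ≤ 2 * N + 1 := by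
  rcases B.eq_empty_or_nonempty with rfl | hne
  · simp
  · have h1 : B ⊆ Finset.Icc (B.min' hne) (B.min' hne + 2 * N) := by
      intro z hz
      rw [Finset.mem_Icc]
      refine ⟨B.min'_le z hz, ?_⟩
      have h2 := abs_le.1 (hB z hz)
      have h3 := abs_le.1 (hB _ (B.min'_mem hne))
      have h4 : (z : ℝ) ≤ (B.min' hne : ℝ) + 2 * N := by linarith [h2.1, h3.2]
      exact_mod_cast h4
    refine (Finset.card_le_card h1).trans (le_of_eq ?_)
    rw [Nat.card_Icc]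
    omega

theorem sum_Us {n N : ℕ} (hN : 1 ≤ N) (s : Ix n → ℝ) :
    ∑ v ∈ (Hs n N).filter (fun v => s ∈ convexHull ℝ (PS N v : Set (Ix n → ℝ))),
      (Us hN s v).card ≤ Cn n * N ^ n * (2 * N + 1) := by
  calc _ ≤ ∑ v ∈ (Hs n N).filter (fun v => s ∈ convexHull ℝ (PS N v : Set (Ix n → ℝ))),
        (Es hN s).card := Finset.sum_le_sum fun v _ => Us_card hN s v
    _ ≤ ∑ v ∈ (Fs n N s ×ˢ Finset.range (N ^ 2)).filter
          (fun v => |yy s - lin (fun i => (v.1 i : ℝ)) s - (v.2 : ℝ)| ≤ N),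
        (Es hN s).card := by
        apply Finset.sum_le_sum_of_subset
        intro v hv
        obtain ⟨hv1, hv2⟩ := Finset.mem_filter.1 hv
        rw [Hs, Finset.mem_product] at hv1
        refine Finset.mem_filter.2 ⟨Finset.mem_product.2
          ⟨Finset.mem_filter.2 ⟨hv1.1, v.2, hv2⟩, hv1.2⟩, ?_⟩
        exact slab_mean (PS_slab hN v) hv2
    _ = ∑ X ∈ Fs n N s, ((Finset.range (N ^ 2)).filter
          (fun Z : ℕ => |yy s - lin (fun i => (X i : ℝ)) s - (Z : ℝ)| ≤ N)).card *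
          (Es hN s).card := by
        rw [Finset.sum_filter, Finset.sum_product]
        refine Finset.sum_congr rfl fun X _ => ?_
        rw [← Finset.sum_filter, Finset.sum_const, smul_eq_mul]
    _ ≤ ∑ _X ∈ Fs n N s, (2 * N + 1) * (Es hN s).card := by
        refine Finset.sum_le_sum fun X _ => Nat.mul_le_mul_right _ ?_
        exact card_near _ N _ fun z hz => (Finset.mem_filter.1 hz).2
    _ = (Fs n N s).card * (Es hN s).card * (2 * N + 1) := by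
        rw [Finset.sum_const, smul_eq_mul]; ring
    _ ≤ _ := Nat.mul_le_mul_right _ (Fs_Es hN s)

/-- The count: every net has at least `c N^(n+1)` points. -/
theorem thick_count (n : ℕ) {N : ℕ} (hN : 1 ≤ N) (S : Finset (Ix n → ℝ))
    (hS : IsNet (QP n N) (1 / (2 * ((n : ℝ) + 1) * N)) S) :
    N ^ (n + 1) ≤ 6 * Cn n * S.card := by
  have hN' : (0 : ℝ) < N := by exact_mod_cast hN
  have h := count (QP n N) (Hs n N) (PS N) (fun v hv => PS_sub hv) (N ^ n)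
    (fun v _ => PS_card N v) (Cn n * N ^ n * (2 * N + 1)) (Us hN)
    (fun s v _ G hG hs => by
      obtain ⟨q, hq, hle⟩ := exists_le_of_mem_hull (Ls hN s) hs
      exact ⟨q, hq, Finset.mem_filter.2 ⟨hG hq, hle⟩⟩)
    (fun s => sum_Us hN s) (1 / (2 * ((n : ℝ) + 1) * N)) (by
      have h1 : ((QP n N).card : ℝ) ≤ (N : ℝ) ^ n * (((n : ℝ) + 1) * N) := by
        exact_mod_cast QP_card n N
      have h2 : 1 / (2 * ((n : ℝ) + 1) * N) * ((QP n N).card : ℝ) ≤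
          1 / (2 * ((n : ℝ) + 1) * N) * ((N : ℝ) ^ n * (((n : ℝ) + 1) * N)) :=
        mul_le_mul_of_nonneg_left h1 (by positivity)
      have h3 : 1 / (2 * ((n : ℝ) + 1) * N) * ((N : ℝ) ^ n * (((n : ℝ) + 1) * N)) =
          (N : ℝ) ^ n / 2 := by
        field_simp
      rw [h3] at h2
      push_cast
      linarith) S hS
  rw [Hs_card] at h
  have h2 : N ^ (n + 1) * N ^ (n + 1) ≤ (6 * Cn n * S.card) * N ^ (n + 1) := by
    calc _ = N ^ n * N ^ 2 * N ^ n := by ring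
      _ ≤ _ := h
      _ = 2 * Cn n * S.card * N ^ n * (2 * N + 1) := by ring
      _ ≤ 2 * Cn n * S.card * N ^ n * (3 * N) := Nat.mul_le_mul_left _ (by omega)
      _ = _ := by ring
  exact Nat.le_of_mul_le_mul_right h2 (by positivity)

end

end MPa20b56.Qd
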