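import Pool.Agent.Lib_MP_a20b56_lb.Fin
import Pool.Agent.Lib_MP_a20b56_qd.Thick

/-!
# Thick slabs and weak epsilon-nets (MP_a20b56_co): conclusion
-/

namespace MPa20b56.Qd

open scoped BigOperators Classical
open MPa20b56.Lb

noncomputable section

theorem Cn_pos (n : ℕ) : 0 < Cn n := by
  unfold Cn; positivity

/-- For `n (n + 5) + 2 ≤ 2 d` every admissible exponent of ordinary weak nets in `ℝ^d` is at least
`n + 1`. -/
theorem thick_le {n d : ℕ} (hd : n * (n + 5) + 2 ≤ 2 * d) {β : ℝ}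
    (hβ : PointAdmissible d β) : (n : ℝ) + 1 ≤ β := by
  have hcard : Fintype.card (Ix n) ≤ Fintype.card (Fin d) := by
    have := card_Ix n
    rw [Fintype.card_fin]
    omega
  obtain ⟨e⟩ := Function.Embedding.nonempty_of_card_le hcard
  have hC : (0 : ℝ) < Cn n := by exact_mod_cast Cn_pos n
  have := exponent_ge (m := 2 * (n + 1)) (b := 2 * ((n : ℝ) + 1)) (c := 1 / (6 * (Cn n : ℝ))) hβ
    (by have : (0 : ℝ) ≤ n := Nat.cast_nonneg n
        linarith) (by positivity) (by
    intro N hN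
    have hN2 : 1 ≤ N ^ 2 := Nat.one_le_pow _ _ hN
    refine ⟨(QP n (N ^ 2)).map (emb e), ?_, ?_⟩
    · rw [Finset.map_nonempty]
      refine ⟨gp (fun _ => 0) (N ^ 2 * 0), Finset.mem_image.2 ⟨(fun _ => 0, 0), ?_, rfl⟩⟩
      rw [Finset.mem_product, mem_Bx, Finset.mem_range]
      exact ⟨fun _ => hN2, by positivity⟩
    · intro S hS
      obtain ⟨S', hc, hS'⟩ := net_pull e (QP n (N ^ 2)) _ S hS
      have h1 := thick_count n hN2 S' (by
        have h0 : ((N ^ 2 : ℕ) : ℝ) = (N : ℝ) ^ 2 := by push_cast; ring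
        rw [h0]
        exact hS')
      have h2 : (N ^ 2) ^ (n + 1) ≤ 6 * Cn n * S.card := h1.trans (Nat.mul_le_mul_left _ hc)
      have h3 : (N : ℝ) ^ (2 * (n + 1)) ≤ 6 * (Cn n : ℝ) * (S.card : ℝ) := by
        rw [pow_mul]
        exact_mod_cast h2
      rw [div_mul_eq_mul_div, one_mul, div_le_iff₀ (by positivity)]
      linarith)
  push_cast at this
  linarith

end

end MPa20b56.Qd
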