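import Mathlib

/-!
# Thick slabs and weak epsilon-nets (MP_a20b56_co): volumes

Integer points in a parallelepiped and in the dual body, and the choice of a basis of maximal
determinant.
-/

namespace MPa20b56.Qd

open scoped BigOperators Classical
open MeasureTheory

noncomputable section

/-- an integer vector as a real vector -/
def cv {m : ℕ} (u : Fin m → ℤ) : Fin m → ℝ := fun i => (u i : ℝ)

/-- the matrix with rows `w i` -/
def mx {m : ℕ} (w : Fin m → (Fin m → ℤ)) : Matrix (Fin m) (Fin m) ℝ := fun i j => (w i j : ℝ)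

theorem mx_apply {m : ℕ} (w : Fin m → (Fin m → ℤ)) (i j : Fin m) : mx w i j = (w i j : ℝ) := rfl

theorem cv_apply {m : ℕ} (u : Fin m → ℤ) (i : Fin m) : cv u i = (u i : ℝ) := rfl

/-- the unit cube at an integer point -/
def cube {m : ℕ} (u : Fin m → ℤ) : Set (Fin m → ℝ) :=
  Set.pi Set.univ fun i => Set.Ico (u i : ℝ) ((u i : ℝ) + 1)

theorem mem_cube {m : ℕ} {u : Fin m → ℤ} {z : Fin m → ℝ} :
    z ∈ cube u ↔ ∀ i, (u i : ℝ) ≤ z i ∧ z i < (u i : ℝ) + 1 := by
  simp [cube, Set.mem_pi, Set.mem_Ico]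

theorem cube_vol {m : ℕ} (u : Fin m → ℤ) : volume (cube u) = 1 := by
  rw [cube, Real.volume_pi_Ico]
  simp

theorem cube_meas {m : ℕ} (u : Fin m → ℤ) : MeasurableSet (cube u) :=
  MeasurableSet.univ_pi fun _ => measurableSet_Ico

theorem cube_disj {m : ℕ} {u v : Fin m → ℤ} (h : u ≠ v) : Disjoint (cube u) (cube v) := by
  rw [Set.disjoint_left]
  intro z hu hv
  rw [mem_cube] at hu hv
  apply h
  funext i
  have h1 := hu i
  have h2 := hv i
  have h3 : (u i : ℝ) < (v i : ℝ) + 1 := by linarith [h1.1, h2.2]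
  have h4 : (v i : ℝ) < (u i : ℝ) + 1 := by linarith [h1.2, h2.1]
  have h5 : u i < v i + 1 := by exact_mod_cast h3
  have h6 : v i < u i + 1 := by exact_mod_cast h4
  omega

/-- The number of integer points whose unit cubes lie in a body is at most its volume. -/
theorem card_le_vol {m : ℕ} (F : Finset (Fin m → ℤ)) (K : Set (Fin m → ℝ)) (V : ℝ) (hV : 0 ≤ V)
    (hK : volume K ≤ ENNReal.ofReal V) (h : ∀ u ∈ F, cube u ⊆ K) : (F.card : ℝ) ≤ V := by
  have h1 : volume (⋃ u ∈ F, cube u) = ∑ u ∈ F, volume (cube u) :=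
    measure_biUnion_finset (fun u _ v _ huv => cube_disj huv) fun u _ => cube_meas u
  have h2 : volume (⋃ u ∈ F, cube u) ≤ volume K := measure_mono (Set.iUnion₂_subset h)
  rw [h1] at h2
  simp only [cube_vol, Finset.sum_const, nsmul_eq_mul, mul_one] at h2
  have h3 : ((F.card : ℕ) : ENNReal) ≤ ENNReal.ofReal V := h2.trans hK
  rw [← ENNReal.ofReal_natCast, ENNReal.ofReal_le_ofReal_iff hV] at h3
  exact h3

/-- Integer points in the parallelepiped spanned by the rows. -/
theorem card_para {m : ℕ} (w : Fin m → (Fin m → ℤ)) (r : ℝ) (hr : 0 ≤ r)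
    (F : Finset (Fin m → ℤ))
    (h : ∀ u ∈ F, ∀ z ∈ cube u, ∃ a : Fin m → ℝ, (∀ i, |a i| ≤ r) ∧
      z = ∑ i, a i • cv (w i)) :
    (F.card : ℝ) ≤ |(mx w).det| * (2 * r) ^ m := by
  refine card_le_vol F (Matrix.toLin' (mx w).transpose '' Metric.closedBall 0 r) _
    (by positivity) ?_ ?_
  · rw [Measure.addHaar_image_linearMap, LinearMap.det_toLin', Matrix.det_transpose,
      Real.volume_pi_closedBall _ hr, Fintype.card_fin, ENNReal.ofReal_mul (abs_nonneg _)]
  · intro u hu z hz
    obtain ⟨a, ha, rfl⟩ := h u hu z hz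
    refine ⟨a, ?_, ?_⟩
    · rw [mem_closedBall_zero_iff, pi_norm_le_iff_of_nonneg hr]
      intro i
      rw [Real.norm_eq_abs]
      exact ha i
    · rw [Matrix.toLin'_apply]
      funext j
      rw [Matrix.mulVec, Finset.sum_apply]
      simp only [dotProduct, Matrix.transpose_apply, mx_apply, Pi.smul_apply, smul_eq_mul,
        cv_apply]
      exact Finset.sum_congr rfl fun i _ => mul_comm _ _

/-- Integer points in the dual body. -/
theorem card_dual {m : ℕ} (w : Fin m → (Fin m → ℤ)) (hw : (mx w).det ≠ 0) (r : ℝ) (hr : 0 ≤ r)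
    (κ : Fin m → ℝ) (F : Finset (Fin m → ℤ))
    (h : ∀ u ∈ F, ∀ z ∈ cube u, ∀ i, |∑ j, (w i j : ℝ) * z j - κ i| ≤ r) :
    (F.card : ℝ) ≤ |(mx w).det|⁻¹ * (2 * r) ^ m := by
  refine card_le_vol F (Matrix.toLin' (mx w) ⁻¹' Metric.closedBall κ r) _
    (by positivity) ?_ ?_
  · rw [Measure.addHaar_preimage_linearMap _ (by rw [LinearMap.det_toLin']; exact hw),
      LinearMap.det_toLin', Real.volume_pi_closedBall _ hr, Fintype.card_fin,
      ENNReal.ofReal_mul (by positivity), abs_inv]
  · intro u hu z hz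
    rw [Set.mem_preimage, Matrix.toLin'_apply, Metric.mem_closedBall, dist_pi_le_iff hr]
    intro i
    rw [Real.dist_eq]
    exact h u hu z hz i

/-- A basis of maximal determinant. -/
theorem auerbach {m : ℕ} (T : Finset (Fin m → ℤ)) (hT : ∀ j, Pi.single j 1 ∈ T) :
    ∃ w : Fin m → (Fin m → ℤ), (∀ i, w i ∈ T) ∧ 1 ≤ |(mx w).det| ∧
      ∀ u ∈ T, ∃ a : Fin m → ℝ, (∀ i, |a i| ≤ 1) ∧ cv u = ∑ i, a i • cv (w i) := by
  obtain ⟨w, hw, hmax⟩ := Finset.exists_max_image (Fintype.piFinset fun _ : Fin m => T)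
    (fun w => |(mx w).det|) ⟨fun j => Pi.single j 1, Fintype.mem_piFinset.2 hT⟩
  rw [Fintype.mem_piFinset] at hw
  have h1 : 1 ≤ |(mx w).det| := by
    have h := hmax (fun j => Pi.single j 1) (Fintype.mem_piFinset.2 hT)
    have h2 : mx (fun j : Fin m => (Pi.single j 1 : Fin m → ℤ)) = 1 := by
      ext i j
      rw [mx_apply, Matrix.one_apply, Pi.single_apply]
      by_cases hij : i = j
      · simp [hij]
      · simp [hij, Ne.symm hij]
    rw [h2, Matrix.det_one, abs_one] at h
    exact h
  have hdet : (mx w).det ≠ 0 := by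
    intro h0
    rw [h0, abs_zero] at h1
    linarith
  refine ⟨w, hw, h1, fun u hu => ?_⟩
  refine ⟨fun i => (mx w).transpose.cramer (cv u) i / (mx w).det, fun i => ?_, ?_⟩
  · rw [abs_div, div_le_one (abs_pos.2 hdet), Matrix.cramer_transpose_apply]
    have h := hmax (Function.update w i u) (by
      rw [Fintype.mem_piFinset]
      intro j
      by_cases hji : j = i
      · subst hji; rw [Function.update_self]; exact hu
      · rw [Function.update_of_ne hji]; exact hw j)
    have h2 : mx (Function.update w i u) = (mx w).updateRow i (cv u) := by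
      ext j k
      rw [mx_apply, Matrix.updateRow_apply]
      by_cases hji : j = i
      · subst hji; rw [Function.update_self, if_pos rfl, cv_apply]
      · rw [Function.update_of_ne hji, if_neg hji, mx_apply]
    rw [h2] at h
    exact h
  · have h := Matrix.mulVec_cramer (mx w).transpose (cv u)
    rw [Matrix.det_transpose] at h
    funext j
    have h2 := congrFun h j
    rw [Matrix.mulVec, Pi.smul_apply, smul_eq_mul] at h2
    simp only [dotProduct, Matrix.transpose_apply, mx_apply] at h2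
    rw [Finset.sum_apply]
    simp only [Pi.smul_apply, smul_eq_mul]
    have h3 : cv u j = (mx w).det * cv u j / (mx w).det := by field_simp
    rw [h3, ← h2, Finset.sum_div]
    refine Finset.sum_congr rfl fun i _ => ?_
    rw [cv_apply]
    ring

end

end MPa20b56.Qd
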